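import Mathlib
/-!
# Angle of sight and isoptics of plane convex sets: basic facts in the complex plane
-/
open Set Real
open scoped EuclideanGeometry

namespace Pool.Agent.NH81.Iso

/-- The angle of sight of `S` at `P`: the opening angle of the cone with apex `P` spanned by `S`,
i.e. the largest angle `∠ x P y` with `x, y ∈ S`. -/
noncomputable def angleOfSight {V : Type*} [NormedAddCommGroup V] [InnerProductSpace ℝ V]
    (S : Set V) (P : V) : ℝ := sSup {t : ℝ | ∃ x ∈ S, ∃ y ∈ S, t = ∠ x P y}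

/-- The isoptic of `S` at angle `α`. -/
def isoptic {V : Type*} [NormedAddCommGroup V] [InnerProductSpace ℝ V] (S : Set V) (α : ℝ) :
    Set V := {P | P ∉ S ∧ angleOfSight S P = α}

/-- The linear functional `⟨x, (cos φ, sin φ)⟩`. -/
noncomputable def L (φ : ℝ) (x : ℂ) : ℝ := x.re * Real.cos φ + x.im * Real.sin φ

lemma L_sub (φ : ℝ) (x y : ℂ) : L φ (x - y) = L φ x - L φ y := by
  simp [L]; ring

lemma L_add (φ : ℝ) (x y : ℂ) : L φ (x + y) = L φ x + L φ y := by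
  simp [L]; ring

lemma L_polar (φ r θ : ℝ) : L φ (r * Complex.exp (θ * Complex.I)) = r * Real.cos (θ - φ) := by
  rw [L, Real.cos_sub]
  simp [Complex.exp_re, Complex.exp_im]
  ring

lemma L_continuous : Continuous fun p : ℝ × ℂ => L p.1 p.2 := by
  unfold L
  fun_prop

/-- The direction (relative to `ω`) of `x` as seen from `P`. -/
noncomputable def dir (P : ℂ) (ω : ℝ) (x : ℂ) : ℝ :=
  Complex.arg ((x - P) * Complex.exp (-ω * Complex.I))

lemma re_mul_exp (z : ℂ) (ω : ℝ) : (z * Complex.exp (-ω * Complex.I)).re = L ω z := by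
  have : (-(ω : ℂ) * Complex.I) = ((-ω : ℝ) : ℂ) * Complex.I := by push_cast; ring
  rw [this, L]
  simp [Complex.exp_re, Complex.exp_im]

lemma dir_mem {P : ℂ} {ω : ℝ} {x : ℂ} (h : 0 < L ω (x - P)) :
    dir P ω x ∈ Ioo (-(π / 2)) (π / 2) := by
  have h1 : 0 < ((x - P) * Complex.exp (-ω * Complex.I)).re := by rwa [re_mul_exp]
  have := (Complex.abs_arg_lt_pi_div_two_iff).2 (Or.inl h1)
  rw [abs_lt] at this
  exact ⟨this.1, this.2⟩

lemma sub_eq_polar (P : ℂ) (ω : ℝ) (x : ℂ) :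
    x - P = ‖x - P‖ * Complex.exp (((ω + dir P ω x : ℝ) : ℂ) * Complex.I) := by
  have h := Complex.norm_mul_exp_arg_mul_I ((x - P) * Complex.exp (-ω * Complex.I))
  have hn : ‖(x - P) * Complex.exp (-ω * Complex.I)‖ = ‖x - P‖ := by
    have : (-(ω : ℂ) * Complex.I) = ((-ω : ℝ) : ℂ) * Complex.I := by push_cast; ring
    rw [norm_mul, this, Complex.norm_exp_ofReal_mul_I, mul_one]
  rw [hn] at h
  have h2 : x - P = ((x - P) * Complex.exp (-ω * Complex.I)) * Complex.exp (ω * Complex.I) := by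
    rw [mul_assoc, ← Complex.exp_add]
    simp
  conv_lhs => rw [h2, ← h]
  rw [mul_assoc, ← Complex.exp_add, dir]
  congr 2
  push_cast
  ring

lemma L_sub_eq (P : ℂ) (ω φ : ℝ) (x : ℂ) :
    L φ (x - P) = ‖x - P‖ * Real.cos (ω + dir P ω x - φ) := by
  conv_lhs => rw [sub_eq_polar P ω x]
  rw [L_polar]

lemma dir_continuousOn {P : ℂ} {ω : ℝ} {S : Set ℂ} (h : ∀ x ∈ S, 0 < L ω (x - P)) :
    ContinuousOn (dir P ω) S := by
  intro x hx
  apply ContinuousAt.continuousWithinAt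
  unfold dir
  have h1 : ((x - P) * Complex.exp (-ω * Complex.I)) ∈ Complex.slitPlane := by
    left
    rw [re_mul_exp]
    exact h x hx
  exact ContinuousAt.comp (f := fun x => (x - P) * Complex.exp (-ω * Complex.I))
    (Complex.continuousAt_arg h1) (by fun_prop)

lemma angle_eq {P : ℂ} {ω : ℝ} {x y : ℂ} (hx : 0 < L ω (x - P)) (hy : 0 < L ω (y - P)) :
    ∠ x P y = |dir P ω x - dir P ω y| := by
  have hx' := dir_mem hx
  have hy' := dir_mem hy
  have hxn : x - P ≠ 0 := by rintro h; rw [h] at hx; simp [L] at hx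
  have hyn : y - P ≠ 0 := by rintro h; rw [h] at hy; simp [L] at hy
  rw [EuclideanGeometry.angle, vsub_eq_sub, vsub_eq_sub, Complex.angle_eq_abs_arg hxn hyn]
  congr 1
  have hpos : 0 < ‖x - P‖ / ‖y - P‖ := div_pos (norm_pos_iff.2 hxn) (norm_pos_iff.2 hyn)
  have : (x - P) / (y - P) = ((‖x - P‖ / ‖y - P‖ : ℝ) : ℂ) *
      Complex.exp (((dir P ω x - dir P ω y : ℝ) : ℂ) * Complex.I) := by
    conv_lhs => rw [sub_eq_polar P ω x, sub_eq_polar P ω y]
    have hyc : (‖y - P‖ : ℂ) ≠ 0 := by exact_mod_cast (norm_pos_iff.2 hyn).ne'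
    rw [div_eq_iff (mul_ne_zero hyc (Complex.exp_ne_zero _))]
    have : ((‖x - P‖ / ‖y - P‖ : ℝ) : ℂ) *
      Complex.exp (((dir P ω x - dir P ω y : ℝ) : ℂ) * Complex.I) *
      (‖y - P‖ * Complex.exp (((ω + dir P ω y : ℝ) : ℂ) * Complex.I)) =
      ((‖x - P‖ / ‖y - P‖ : ℝ) : ℂ) * ‖y - P‖ *
      (Complex.exp (((dir P ω x - dir P ω y : ℝ) : ℂ) * Complex.I) *
        Complex.exp (((ω + dir P ω y : ℝ) : ℂ) * Complex.I)) := by ring
    rw [this, ← Complex.exp_add]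
    congr 1
    · push_cast
      field_simp
    · congr 1
      push_cast
      ring
  rw [this, Complex.arg_real_mul _ hpos, Complex.arg_exp_mul_I, toIocMod_eq_self]
  constructor
  · linarith [hx'.1, hy'.2]
  · linarith [hx'.2, hy'.1]

/-- The extreme directions. -/
lemma sight {S : Set ℂ} (hS : IsCompact S) (hne : S.Nonempty) {P : ℂ} {ω : ℝ}
    (h : ∀ x ∈ S, 0 < L ω (x - P)) :
    ∃ y₁ ∈ S, ∃ y₂ ∈ S, (∀ x ∈ S, dir P ω y₁ ≤ dir P ω x ∧ dir P ω x ≤ dir P ω y₂) ∧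
      angleOfSight S P = dir P ω y₂ - dir P ω y₁ := by
  obtain ⟨y₁, h₁, h₁'⟩ := hS.exists_isMinOn hne (dir_continuousOn h)
  obtain ⟨y₂, h₂, h₂'⟩ := hS.exists_isMaxOn hne (dir_continuousOn h)
  refine ⟨y₁, h₁, y₂, h₂, fun x hx => ⟨h₁' hx, h₂' hx⟩, ?_⟩
  apply IsGreatest.csSup_eq
  constructor
  · refine ⟨y₁, h₁, y₂, h₂, ?_⟩
    rw [angle_eq (h y₁ h₁) (h y₂ h₂), abs_sub_comm, abs_of_nonneg]
    linarith [show dir P ω y₁ ≤ dir P ω y₂ from h₁' h₂]
  · rintro t ⟨x, hx, y, hy, rfl⟩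
    rw [angle_eq (h x hx) (h y hy), abs_le]
    have a1 : dir P ω y₁ ≤ dir P ω x := h₁' hx
    have a2 : dir P ω y₁ ≤ dir P ω y := h₁' hy
    have a3 : dir P ω x ≤ dir P ω y₂ := h₂' hx
    have a4 : dir P ω y ≤ dir P ω y₂ := h₂' hy
    constructor <;> linarith

end Pool.Agent.NH81.Iso
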