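import Pool.Agent.NH81.Iso.A
/-!
# The functional equation of a convex set with a circular isoptic
-/
open Set Real Metric
open scoped EuclideanGeometry

namespace Pool.Agent.NH81.Iso

/-- Support function. -/
noncomputable def supp (S : Set ℂ) (φ : ℝ) : ℝ := sSup (L φ '' S)

lemma L_le_supp {S : Set ℂ} (hS : IsCompact S) {x : ℂ} (hx : x ∈ S) (φ : ℝ) :
    L φ x ≤ supp S φ := by
  apply le_csSup _ (mem_image_of_mem _ hx)
  exact (hS.image (L_continuous.comp (Continuous.prodMk_right φ))).bddAbove

lemma exists_supp {S : Set ℂ} (hS : IsCompact S) (hne : S.Nonempty) (φ : ℝ) :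
    ∃ x ∈ S, supp S φ = L φ x := by
  have := (hS.image (L_continuous.comp (Continuous.prodMk_right φ))).sSup_mem (hne.image _)
  obtain ⟨x, hx, h⟩ := this
  exact ⟨x, hx, h.symm⟩

lemma supp_continuous {S : Set ℂ} (hS : IsCompact S) : Continuous (supp S) :=
  hS.continuous_sSup (f := fun φ x => L φ x) L_continuous

lemma L_periodic (x : ℂ) (φ : ℝ) : L (φ + 2 * π) x = L φ x := by
  simp [L]

lemma supp_periodic (S : Set ℂ) (φ : ℝ) : supp S (φ + 2 * π) = supp S φ := by
  have : L (φ + 2 * π) = L φ := by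
    funext x
    exact L_periodic x φ
  rw [supp, this, supp]

/-- If `P` is seen on the support line with normal `φ`, then this line is one of the two extreme
ones. -/
lemma extreme {S : Set ℂ} {P : ℂ} {ω φ : ℝ} (h : ∀ x ∈ S, 0 < L ω (x - P)) {y : ℂ} (hy : y ∈ S)
    (hy0 : L φ (y - P) = 0) (hle : ∀ x ∈ S, L φ (x - P) ≤ 0) :
    (∃ k : ℤ, φ = ω + dir P ω y + π / 2 + k * (2 * π) ∧ ∀ x ∈ S, dir P ω x ≤ dir P ω y) ∨
    (∃ k : ℤ, φ = ω + dir P ω y - π / 2 + k * (2 * π) ∧ ∀ x ∈ S, dir P ω y ≤ dir P ω x) := by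
  have hn : ∀ x ∈ S, 0 < ‖x - P‖ := by
    intro x hx
    rw [norm_pos_iff]
    rintro h0
    have := h x hx
    rw [h0] at this
    simp [L] at this
  have hy1 : Real.cos (ω + dir P ω y - φ) = 0 := by
    rw [L_sub_eq P ω] at hy0
    exact (mul_eq_zero.1 hy0).resolve_left (hn y hy).ne'
  have hx1 : ∀ x ∈ S, Real.cos (ω + dir P ω x - φ) ≤ 0 := by
    intro x hx
    have := hle x hx
    rw [L_sub_eq P ω] at this
    by_contra hc
    push Not at hc
    have := mul_pos (hn x hx) hc
    linarith
  obtain ⟨k, hk⟩ := Real.cos_eq_zero_iff.1 hy1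
  have hd := fun x hx => dir_mem (h x hx)
  rcases Int.even_or_odd k with ⟨m, hm⟩ | ⟨m, hm⟩
  · right
    refine ⟨-m, ?_, ?_⟩
    · have : (k : ℝ) = m + m := by rw [hm]; push_cast; ring
      rw [this] at hk
      push_cast
      linarith
    · intro x hx
      by_contra hc
      push Not at hc
      have h1 := hx1 x hx
      have h2 : ω + dir P ω x - φ = (dir P ω x - dir P ω y + π / 2) + m * (2 * π) := by
        have : (k : ℝ) = m + m := by rw [hm]; push_cast; ring
        rw [this] at hk
        linarith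
      rw [h2, Real.cos_add_int_mul_two_pi, Real.cos_add_pi_div_two] at h1
      have h3 := hd x hx
      have h4 := hd y hy
      have : Real.sin (dir P ω x - dir P ω y) < 0 :=
        Real.sin_neg_of_neg_of_neg_pi_lt (by linarith) (by linarith [h3.1, h4.2])
      linarith
  · left
    refine ⟨-(m + 1), ?_, ?_⟩
    · have : (k : ℝ) = 2 * m + 1 := by rw [hm]; push_cast; ring
      rw [this] at hk
      push_cast
      linarith
    · intro x hx
      by_contra hc
      push Not at hc
      have h1 := hx1 x hx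
      have h2 : ω + dir P ω x - φ = (dir P ω x - dir P ω y - π / 2) + ((m + 1 : ℤ) : ℝ) * (2 * π) := by
        have : (k : ℝ) = 2 * m + 1 := by rw [hm]; push_cast; ring
        rw [this] at hk
        push_cast
        linarith
      rw [h2, Real.cos_add_int_mul_two_pi, Real.cos_sub_pi_div_two] at h1
      have h3 := hd x hx
      have h4 := hd y hy
      have : 0 < Real.sin (dir P ω x - dir P ω y) :=
        Real.sin_pos_of_pos_of_lt_pi (by linarith) (by linarith [h3.2, h4.1])
      linarith

/-- The set lies inside its circular isoptic. -/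
lemma inside {S : Set ℂ} (hS : IsCompact S) (hc : Convex ℝ S) (hne : S.Nonempty) {c : ℂ} {R α : ℝ}
    (hR : 0 < R) (hα : 0 < α) (hiso : sphere c R ⊆ isoptic S α) : S ⊆ ball c R := by
  by_contra hcon
  have hdisj : ∀ x ∈ S, x ∉ sphere c R := fun x hx hx' => (hiso hx').1 hx
  -- there is a point of `S` outside the closed ball, hence all of `S` is outside
  obtain ⟨x0, hx0, hx0'⟩ := not_subset.1 hcon
  have hfar : ∀ x ∈ S, R < dist x c := by
    intro x hx
    by_contra hlt
    push Not at hlt
    have hlt' : dist x c < R := lt_of_le_of_ne hlt (fun he => hdisj x hx (mem_sphere.2 he))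
    have h0 : R < dist x0 c := by
      rw [mem_ball, not_lt] at hx0'
      exact lt_of_le_of_ne hx0' (fun he => hdisj x0 hx0 (mem_sphere.2 he.symm))
    have hpre := hc.isPreconnected
    have hcont : ContinuousOn (fun z : ℂ => dist z c) S := (by fun_prop : Continuous _).continuousOn
    have := hpre.intermediate_value hx hx0 hcont ⟨hlt'.le, h0.le⟩
    obtain ⟨z, hz, hz'⟩ := this
    exact hdisj z hz (mem_sphere.2 hz')
  have hd : Disjoint (closedBall c R) S := by
    rw [Set.disjoint_left]
    intro z hz hz'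
    have := hfar z hz'
    rw [mem_closedBall] at hz
    linarith
  obtain ⟨f, s, t, h1, h2, h3⟩ := geometric_hahn_banach_compact_closed
    (convex_closedBall c R) (isCompact_closedBall c R) hc hS.isClosed hd
  -- represent `f` by a direction
  have hf : ∀ z : ℂ, f z = f 1 * z.re + f Complex.I * z.im := by
    intro z
    have : z = z.re • (1 : ℂ) + z.im • Complex.I := by
      simp
    conv_lhs => rw [this]
    rw [map_add, map_smul, map_smul, smul_eq_mul, smul_eq_mul]
    ring
  set w : ℂ := ⟨f 1, f Complex.I⟩ with hw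
  have hw0 : w ≠ 0 := by
    intro h0
    have e1 : f 1 = 0 := by have := congrArg Complex.re h0; simpa [hw] using this
    have e2 : f Complex.I = 0 := by have := congrArg Complex.im h0; simpa [hw] using this
    have a1 := h1 c (mem_closedBall_self hR.le)
    have a2 := h3 x0 hx0
    rw [hf c, e1, e2] at a1
    rw [hf x0, e1, e2] at a2
    linarith
  set ω : ℝ := Complex.arg w with hω
  have hfL : ∀ z : ℂ, f z = ‖w‖ * L ω z := by
    intro z
    rw [hf z, L]
    have e := Complex.norm_mul_exp_arg_mul_I w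
    have er : f 1 = ‖w‖ * Real.cos ω := by
      have := congrArg Complex.re e
      simp [Complex.exp_re] at this
      rw [hω]
      simpa [hw] using this.symm
    have ei : f Complex.I = ‖w‖ * Real.sin ω := by
      have := congrArg Complex.im e
      simp [Complex.exp_im] at this
      rw [hω]
      simpa [hw] using this.symm
    rw [er, ei]
    ring
  have hwpos : 0 < ‖w‖ := norm_pos_iff.2 hw0
  have hsep : ∀ P ∈ closedBall c R, ∀ x ∈ S, 0 < L ω (x - P) := by
    intro P hP x hx
    have a1 := h1 P hP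
    have a2 := h3 x hx
    rw [hfL] at a1 a2
    rw [L_sub]
    have : ‖w‖ * L ω P < ‖w‖ * L ω x := by linarith
    have := lt_of_mul_lt_mul_left this hwpos.le
    linarith
  -- the two antipodal points
  set d : ℝ := dist x0 c with hdd
  have hdR : R < d := hfar x0 hx0
  have hd0 : 0 < d := hR.trans hdR
  have hnorm : ‖x0 - c‖ = d := by rw [hdd, dist_eq_norm]
  set P : ℂ := c - ((R / d : ℝ) : ℂ) * (x0 - c) with hP
  set P' : ℂ := c + ((R / d : ℝ) : ℂ) * (x0 - c) with hP'
  have hPs : P ∈ sphere c R := by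
    rw [mem_sphere, dist_eq_norm, hP]
    have : c - ((R / d : ℝ) : ℂ) * (x0 - c) - c = -(((R / d : ℝ) : ℂ) * (x0 - c)) := by ring
    rw [this, norm_neg, norm_mul, hnorm, Complex.norm_real, Real.norm_eq_abs,
      abs_of_pos (div_pos hR hd0)]
    field_simp
  have hPs' : P' ∈ sphere c R := by
    rw [mem_sphere, dist_eq_norm, hP']
    have : c + ((R / d : ℝ) : ℂ) * (x0 - c) - c = (((R / d : ℝ) : ℂ) * (x0 - c)) := by ring
    rw [this, norm_mul, hnorm, Complex.norm_real, Real.norm_eq_abs,
      abs_of_pos (div_pos hR hd0)]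
    field_simp
  have hb := hsep P (sphere_subset_closedBall hPs)
  have hb' := hsep P' (sphere_subset_closedBall hPs')
  obtain ⟨y₁, hy₁, y₂, hy₂, hext, hang⟩ := sight hS hne hb
  obtain ⟨z₁, hz₁, z₂, hz₂, hext', hang'⟩ := sight hS hne hb'
  rw [(hiso hPs).2] at hang
  rw [(hiso hPs').2] at hang'
  -- `P' - P = t (x0 - P)` with `t > 0`
  set t : ℝ := 2 * R / (d + R) with ht
  have htpos : 0 < t := by positivity
  have hPP : P' - P = (t : ℂ) * (x0 - P) := by
    rw [hP, hP', ht]
    have hdc : (d : ℂ) ≠ 0 := by exact_mod_cast hd0.ne'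
    have hdRc : (d : ℂ) + R ≠ 0 := by
      have : (d + R : ℝ) ≠ 0 := by positivity
      exact_mod_cast this
    push_cast
    field_simp
    ring
  have hLPP : ∀ φ, L φ (P' - P) = t * L φ (x0 - P) := by
    intro φ
    rw [hPP]
    simp [L]
    ring
  have hn : ∀ x ∈ S, 0 < ‖x - P‖ := by
    intro x hx
    rw [norm_pos_iff]
    rintro h0
    have := hb x hx
    rw [h0] at this
    simp [L] at this
  have hn' : ∀ x ∈ S, 0 < ‖x - P'‖ := by
    intro x hx
    rw [norm_pos_iff]
    rintro h0
    have := hb' x hx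
    rw [h0] at this
    simp [L] at this
  have hdx0 := dir_mem (hb x0 hx0)
  have hdy1 := dir_mem (hb y₁ hy₁)
  have hdy2 := dir_mem (hb y₂ hy₂)
  have hdy1' := dir_mem (hb' y₁ hy₁)
  have hdy2' := dir_mem (hb' y₂ hy₂)
  -- upper side
  have up : dir P ω y₂ ≤ dir P' ω y₂ ∧ (dir P' ω y₂ = dir P ω y₂ → dir P ω x0 = dir P ω y₂) := by
    set φ : ℝ := ω + dir P ω y₂ + π / 2 with hφ
    have e1 : L φ (y₂ - P) = 0 := by
      rw [L_sub_eq P ω]
      have : ω + dir P ω y₂ - φ = -(π / 2) := by rw [hφ]; ring
      rw [this, Real.cos_neg, Real.cos_pi_div_two, mul_zero]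
    have e2 : L φ (x0 - P) = ‖x0 - P‖ * Real.sin (dir P ω x0 - dir P ω y₂) := by
      rw [L_sub_eq P ω]
      have : ω + dir P ω x0 - φ = (dir P ω x0 - dir P ω y₂) - π / 2 := by rw [hφ]; ring
      rw [this, Real.cos_sub_pi_div_two]
    have e3 : L φ (y₂ - P') = ‖y₂ - P'‖ * Real.sin (dir P' ω y₂ - dir P ω y₂) := by
      rw [L_sub_eq P' ω]
      have : ω + dir P' ω y₂ - φ = (dir P' ω y₂ - dir P ω y₂) - π / 2 := by rw [hφ]; ring
      rw [this, Real.cos_sub_pi_div_two]
    have e4 : L φ (y₂ - P') = - (t * L φ (x0 - P)) := by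
      have : y₂ - P' = (y₂ - P) - (P' - P) := by ring
      rw [this, L_sub, e1, hLPP]
      ring
    have hx := (hext x0 hx0).2
    constructor
    · by_contra hlt
      push Not at hlt
      have s1 : Real.sin (dir P' ω y₂ - dir P ω y₂) < 0 :=
        Real.sin_neg_of_neg_of_neg_pi_lt (by linarith) (by linarith [hdy2'.1, hdy2.2])
      have s2 : Real.sin (dir P ω x0 - dir P ω y₂) ≤ 0 :=
        Real.sin_nonpos_of_nonpos_of_neg_pi_le (by linarith) (by linarith [hdx0.1, hdy2.2])
      have s3 : L φ (y₂ - P') < 0 := by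
        rw [e3]; exact mul_neg_of_pos_of_neg (hn' y₂ hy₂) s1
      have s4 : L φ (x0 - P) ≤ 0 := by
        rw [e2]; exact mul_nonpos_of_nonneg_of_nonpos (hn x0 hx0).le s2
      rw [e4] at s3
      nlinarith
    · intro he
      rw [he, sub_self, Real.sin_zero, mul_zero] at e3
      rw [e3] at e4
      have s4 : L φ (x0 - P) = 0 := by
        have : t * L φ (x0 - P) = 0 := by linarith
        exact (mul_eq_zero.1 this).resolve_left htpos.ne'
      rw [e2] at s4
      have s5 := (mul_eq_zero.1 s4).resolve_left (hn x0 hx0).ne'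
      by_contra hne'
      have s6 : Real.sin (dir P ω x0 - dir P ω y₂) < 0 := by
        apply Real.sin_neg_of_neg_of_neg_pi_lt
        · have := lt_of_le_of_ne hx hne'
          linarith
        · linarith [hdx0.1, hdy2.2]
      linarith
  have lo : dir P' ω y₁ ≤ dir P ω y₁ ∧ (dir P' ω y₁ = dir P ω y₁ → dir P ω x0 = dir P ω y₁) := by
    set φ : ℝ := ω + dir P ω y₁ - π / 2 with hφ
    have e1 : L φ (y₁ - P) = 0 := by
      rw [L_sub_eq P ω]
      have : ω + dir P ω y₁ - φ = (π / 2) := by rw [hφ]; ring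
      rw [this, Real.cos_pi_div_two, mul_zero]
    have e2 : L φ (x0 - P) = -(‖x0 - P‖ * Real.sin (dir P ω x0 - dir P ω y₁)) := by
      rw [L_sub_eq P ω]
      have : ω + dir P ω x0 - φ = (dir P ω x0 - dir P ω y₁) + π / 2 := by rw [hφ]; ring
      rw [this, Real.cos_add_pi_div_two]
      ring
    have e3 : L φ (y₁ - P') = -(‖y₁ - P'‖ * Real.sin (dir P' ω y₁ - dir P ω y₁)) := by
      rw [L_sub_eq P' ω]
      have : ω + dir P' ω y₁ - φ = (dir P' ω y₁ - dir P ω y₁) + π / 2 := by rw [hφ]; ring
      rw [this, Real.cos_add_pi_div_two]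
      ring
    have e4 : L φ (y₁ - P') = - (t * L φ (x0 - P)) := by
      have : y₁ - P' = (y₁ - P) - (P' - P) := by ring
      rw [this, L_sub, e1, hLPP]
      ring
    have hx := (hext x0 hx0).1
    constructor
    · by_contra hlt
      push Not at hlt
      have s1 : 0 < Real.sin (dir P' ω y₁ - dir P ω y₁) :=
        Real.sin_pos_of_pos_of_lt_pi (by linarith) (by linarith [hdy1'.2, hdy1.1])
      have s2 : 0 ≤ Real.sin (dir P ω x0 - dir P ω y₁) :=
        Real.sin_nonneg_of_nonneg_of_le_pi (by linarith) (by linarith [hdx0.2, hdy1.1])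
      have s3 : L φ (y₁ - P') < 0 := by
        rw [e3]
        have := mul_pos (hn' y₁ hy₁) s1
        linarith
      have s4 : L φ (x0 - P) ≤ 0 := by
        rw [e2]
        have := mul_nonneg (hn x0 hx0).le s2
        linarith
      rw [e4] at s3
      nlinarith
    · intro he
      rw [he, sub_self, Real.sin_zero, mul_zero, neg_zero] at e3
      rw [e3] at e4
      have s4 : L φ (x0 - P) = 0 := by
        have : t * L φ (x0 - P) = 0 := by linarith
        exact (mul_eq_zero.1 this).resolve_left htpos.ne'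
      rw [e2, neg_eq_zero] at s4
      have s5 := (mul_eq_zero.1 s4).resolve_left (hn x0 hx0).ne'
      by_contra hne'
      have s6 : 0 < Real.sin (dir P ω x0 - dir P ω y₁) := by
        apply Real.sin_pos_of_pos_of_lt_pi
        · have := lt_of_le_of_ne hx (Ne.symm hne')
          linarith
        · linarith [hdx0.2, hdy1.1]
      linarith
  have k1 := (hext' y₂ hy₂).2
  have k2 := (hext' y₁ hy₁).1
  have e1 : dir P' ω y₂ = dir P ω y₂ := by linarith [up.1, lo.1]
  have e2 : dir P' ω y₁ = dir P ω y₁ := by linarith [up.1, lo.1]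
  have e3 := up.2 e1
  have e4 := lo.2 e2
  linarith

/-- The functional equation: with `ψ = arccos (H / R)`, `H` the support function with respect to
the centre of the circle, one has `ψ φ + ψ (φ + β) = β`, `β = π - α`. -/
lemma funeq {S : Set ℂ} (hS : IsCompact S) (hne : S.Nonempty) {c : ℂ} {R α : ℝ}
    (hR : 0 < R) (hα : 0 < α) (hiso : sphere c R ⊆ isoptic S α)
    (hin : S ⊆ ball c R) (φ : ℝ) :
    |supp S φ - L φ c| < R ∧
    Real.arccos ((supp S φ - L φ c) / R) +
      Real.arccos ((supp S (φ + (π - α)) - L (φ + (π - α)) c) / R) = π - α := by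
  have habs : ∀ φ, |supp S φ - L φ c| < R := by
    intro φ
    obtain ⟨x, hx, h⟩ := exists_supp hS hne φ
    rw [h, ← L_sub]
    have h2 : |L φ (x - c)| ≤ ‖x - c‖ := by
      have := L_sub_eq c 0 φ x
      rw [this, abs_mul, abs_norm]
      have := Real.abs_cos_le_one (0 + dir c 0 x - φ)
      have h3 := norm_nonneg (x - c)
      nlinarith
    have h4 : ‖x - c‖ < R := by
      have := hin hx
      rwa [mem_ball, dist_eq_norm] at this
    linarith
  refine ⟨habs φ, ?_⟩
  set H : ℝ := supp S φ - L φ c with hH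
  have hHR := abs_lt.1 (habs φ)
  rw [← hH] at hHR
  set ψ : ℝ := Real.arccos (H / R) with hψ
  have hq : -1 < H / R ∧ H / R < 1 := by
    constructor
    · rw [lt_div_iff₀ hR]; linarith [hHR.1]
    · rw [div_lt_iff₀ hR]; linarith [hHR.2]
  have hcosψ : Real.cos ψ = H / R := Real.cos_arccos hq.1.le hq.2.le
  have hψ0 : 0 < ψ := Real.arccos_pos.2 hq.2
  have hψπ : ψ < π := by
    rw [hψ]
    refine lt_of_le_of_ne (Real.arccos_le_pi _) ?_
    intro he
    rw [Real.arccos_eq_pi] at he
    linarith [hq.1]
  set θ : ℝ := φ + ψ with hθ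
  set P : ℂ := c + R * Complex.exp (θ * Complex.I) with hP
  have hLP : ∀ φ', L φ' (P - c) = R * Real.cos (θ - φ') := by
    intro φ'
    have : P - c = R * Complex.exp (θ * Complex.I) := by rw [hP]; ring
    rw [this, L_polar]
  have hPs : P ∈ sphere c R := by
    rw [mem_sphere, dist_eq_norm]
    have : P - c = R * Complex.exp (θ * Complex.I) := by rw [hP]; ring
    rw [this, norm_mul, Complex.norm_exp_ofReal_mul_I, mul_one, Complex.norm_real,
      Real.norm_eq_abs, abs_of_pos hR]
  have hpos : ∀ x ∈ S, 0 < L (θ + π) (x - P) := by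
    intro x hx
    have e : x - P = (x - c) - (P - c) := by ring
    rw [e, L_sub, hLP]
    have h1 : Real.cos (θ - (θ + π)) = -1 := by
      have : θ - (θ + π) = -π := by ring
      rw [this, Real.cos_neg, Real.cos_pi]
    rw [h1]
    have h2 : |L (θ + π) (x - c)| ≤ ‖x - c‖ := by
      have := L_sub_eq c 0 (θ + π) x
      rw [this, abs_mul, abs_norm]
      have := Real.abs_cos_le_one (0 + dir c 0 x - (θ + π))
      have h3 := norm_nonneg (x - c)
      nlinarith
    have h4 : ‖x - c‖ < R := by
      have := hin hx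
      rwa [mem_ball, dist_eq_norm] at this
    have := (abs_le.1 h2).1
    linarith
  obtain ⟨y₁, hy₁, y₂, hy₂, hext, hang⟩ := sight hS hne hpos
  rw [(hiso hPs).2] at hang
  -- the support line with normal `φ` passes through `P`
  have hthr : L φ P = supp S φ := by
    have := hLP φ
    rw [L_sub] at this
    have e : θ - φ = ψ := by rw [hθ]; ring
    rw [e, hcosψ] at this
    field_simp at this
    linarith
  obtain ⟨y, hy, hy0⟩ := exists_supp hS hne φ
  have hle : ∀ x ∈ S, L φ (x - P) ≤ 0 := by
    intro x hx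
    rw [L_sub, hthr]
    linarith [L_le_supp hS hx φ]
  have hy0' : L φ (y - P) = 0 := by
    rw [L_sub, hthr, hy0, sub_self]
  have hdy := dir_mem (hpos y hy)
  have hdy1 := dir_mem (hpos y₁ hy₁)
  have hdy2 := dir_mem (hpos y₂ hy₂)
  rcases extreme hpos hy hy0' hle with ⟨k, hk, hmax⟩ | ⟨k, hk, hmin⟩
  · have hyy : dir P (θ + π) y = dir P (θ + π) y₂ := le_antisymm (hext y hy).2 (hmax y₂ hy₂)
    rw [hyy] at hk
    -- `-ψ = 3π/2 + τ₂ + 2πk`
    have e1 : -ψ = dir P (θ + π) y₂ - π / 2 + ((k + 1 : ℤ) : ℝ) * (2 * π) := by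
      have : φ = θ - ψ := by rw [hθ]; ring
      push_cast
      linarith
    have hk0 : k + 1 = 0 := by
      have b1 : -1 < ((k + 1 : ℤ) : ℝ) := by
        by_contra hcon
        push Not at hcon
        have := pi_pos
        nlinarith [hdy2.2]
      have b2 : ((k + 1 : ℤ) : ℝ) < 1 := by
        by_contra hcon
        push Not at hcon
        have := pi_pos
        nlinarith [hdy2.1]
      have b1' : -1 < k + 1 := by exact_mod_cast b1
      have b2' : k + 1 < 1 := by exact_mod_cast b2
      omega
    rw [hk0] at e1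
    have e2 : ψ = π / 2 - dir P (θ + π) y₂ := by
      push_cast at e1
      linarith
    -- the other support line
    set φ₁ : ℝ := φ + (π - α) with hφ₁
    have e3 : φ₁ = θ + π / 2 + dir P (θ + π) y₁ := by
      rw [hφ₁, hθ] at *
      linarith
    have hzero : L φ₁ (y₁ - P) = 0 := by
      rw [L_sub_eq P (θ + π)]
      have : θ + π + dir P (θ + π) y₁ - φ₁ = π / 2 := by rw [e3]; ring
      rw [this, Real.cos_pi_div_two, mul_zero]
    have hle1 : ∀ x ∈ S, L φ₁ x ≤ L φ₁ P := by
      intro x hx
      have : L φ₁ (x - P) ≤ 0 := by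
        rw [L_sub_eq P (θ + π)]
        have e : θ + π + dir P (θ + π) x - φ₁ =
            (dir P (θ + π) x - dir P (θ + π) y₁) + π / 2 := by rw [e3]; ring
        rw [e, Real.cos_add_pi_div_two]
        have := dir_mem (hpos x hx)
        have hs : 0 ≤ Real.sin (dir P (θ + π) x - dir P (θ + π) y₁) :=
          Real.sin_nonneg_of_nonneg_of_le_pi (by linarith [(hext x hx).1])
            (by linarith [this.2, hdy1.1])
        have := mul_nonneg (norm_nonneg (x - P)) hs
        linarith
      rw [L_sub] at this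
      linarith
    have hsupp : supp S φ₁ = L φ₁ P := by
      apply le_antisymm
      · apply csSup_le (hne.image _)
        rintro _ ⟨x, hx, rfl⟩
        exact hle1 x hx
      · have := L_le_supp hS hy₁ φ₁
        rw [L_sub] at hzero
        linarith
    have h5 : supp S φ₁ - L φ₁ c = R * Real.cos (π / 2 + dir P (θ + π) y₁) := by
      rw [hsupp, ← L_sub, hLP]
      have : θ - φ₁ = -(π / 2 + dir P (θ + π) y₁) := by rw [e3]; ring
      rw [this, Real.cos_neg]
    rw [h5, mul_div_cancel_left₀ _ hR.ne', Real.arccos_cos (by linarith [hdy1.1])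
      (by linarith [hdy1.2])]
    linarith
  · exfalso
    have e1 : -ψ = dir P (θ + π) y + π / 2 + k * (2 * π) := by
      have : φ = θ - ψ := by rw [hθ]; ring
      linarith
    have b1 : -1 < (k : ℝ) := by
      by_contra hcon
      push Not at hcon
      have := pi_pos
      nlinarith [hdy.2]
    have b2 : (k : ℝ) < 0 := by
      by_contra hcon
      push Not at hcon
      have := pi_pos
      nlinarith [hdy.1]
    have b1' : -1 < k := by exact_mod_cast b1
    have b2' : k < 0 := by exact_mod_cast b2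
    omega

end Pool.Agent.NH81.Iso
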