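import Pool.Agent.NH81.Iso.B
/-!
# Two circular isoptics force a disc
-/
open Set Real Metric
open scoped EuclideanGeometry

namespace Pool.Agent.NH81.Iso

/-- The first harmonic of a function with the periods `2 π` and `2 β` vanishes if `0 < β < π`. -/
lemma first_harmonic {H : ℝ → ℝ} {β : ℝ} (hβ : 0 < β) (hβ' : β < π)
    (h1 : ∀ φ, H (φ + 2 * π) = H φ) (h2 : ∀ φ, H (φ + 2 * β) = H φ) (hc : Continuous H) :
    (∫ φ in (0 : ℝ)..(2 * π), H φ * Real.cos φ) = 0 ∧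
    (∫ φ in (0 : ℝ)..(2 * π), H φ * Real.sin φ) = 0 := by
  set A := ∫ φ in (0 : ℝ)..(2 * π), H φ * Real.cos φ with hA
  set B := ∫ φ in (0 : ℝ)..(2 * π), H φ * Real.sin φ with hB
  have iC : ∀ a b : ℝ, IntervalIntegrable (fun φ => H φ * Real.cos φ) MeasureTheory.volume a b :=
    fun a b => (hc.mul Real.continuous_cos).intervalIntegrable _ _
  have iS : ∀ a b : ℝ, IntervalIntegrable (fun φ => H φ * Real.sin φ) MeasureTheory.volume a b :=
    fun a b => (hc.mul Real.continuous_sin).intervalIntegrable _ _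
  have pC : Function.Periodic (fun φ => H φ * Real.cos φ) (2 * π) := by
    intro φ; simp [h1]
  have pS : Function.Periodic (fun φ => H φ * Real.sin φ) (2 * π) := by
    intro φ; simp [h1]
  have eA : A = A * Real.cos (2 * β) - B * Real.sin (2 * β) := by
    have e1 : A = ∫ φ in (2 * β)..(2 * β + 2 * π), H φ * Real.cos φ := by
      have := pC.intervalIntegral_add_eq 0 (2 * β)
      rw [zero_add] at this
      exact this
    have e2 : (∫ φ in (0 : ℝ)..(2 * π), H (φ + 2 * β) * Real.cos (φ + 2 * β)) =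
        ∫ φ in (2 * β)..(2 * β + 2 * π), H φ * Real.cos φ := by
      have := intervalIntegral.integral_comp_add_right (a := 0) (b := 2 * π)
        (fun φ => H φ * Real.cos φ) (2 * β)
      rw [this]
      ring_nf
    rw [← e2] at e1
    have : (fun φ => H (φ + 2 * β) * Real.cos (φ + 2 * β)) =
        fun φ => (H φ * Real.cos φ) * Real.cos (2 * β) - (H φ * Real.sin φ) * Real.sin (2 * β) := by
      funext φ
      rw [h2, Real.cos_add]
      ring
    rw [this, intervalIntegral.integral_sub ((iC _ _).mul_const _) ((iS _ _).mul_const _),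
      intervalIntegral.integral_mul_const, intervalIntegral.integral_mul_const] at e1
    exact e1
  have eB : B = A * Real.sin (2 * β) + B * Real.cos (2 * β) := by
    have e1 : B = ∫ φ in (2 * β)..(2 * β + 2 * π), H φ * Real.sin φ := by
      have := pS.intervalIntegral_add_eq 0 (2 * β)
      rw [zero_add] at this
      exact this
    have e2 : (∫ φ in (0 : ℝ)..(2 * π), H (φ + 2 * β) * Real.sin (φ + 2 * β)) =
        ∫ φ in (2 * β)..(2 * β + 2 * π), H φ * Real.sin φ := by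
      have := intervalIntegral.integral_comp_add_right (a := 0) (b := 2 * π)
        (fun φ => H φ * Real.sin φ) (2 * β)
      rw [this]
      ring_nf
    rw [← e2] at e1
    have : (fun φ => H (φ + 2 * β) * Real.sin (φ + 2 * β)) =
        fun φ => (H φ * Real.cos φ) * Real.sin (2 * β) + (H φ * Real.sin φ) * Real.cos (2 * β) := by
      funext φ
      rw [h2, Real.sin_add]
      ring
    rw [this, intervalIntegral.integral_add ((iC _ _).mul_const _) ((iS _ _).mul_const _),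
      intervalIntegral.integral_mul_const, intervalIntegral.integral_mul_const] at e1
    exact e1
  have hne : Real.cos (2 * β) ≠ 1 := by
    intro h
    rw [Real.cos_eq_one_iff] at h
    obtain ⟨n, hn⟩ := h
    have hp := pi_pos
    have b1 : (0 : ℝ) < n := by
      by_contra hcon
      push Not at hcon
      nlinarith
    have b2 : (n : ℝ) < 1 := by
      by_contra hcon
      push Not at hcon
      nlinarith
    have b1' : 0 < n := by exact_mod_cast b1
    have b2' : n < 1 := by exact_mod_cast b2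
    omega
  have hpos : 0 < 1 - Real.cos (2 * β) := by
    have := Real.cos_le_one (2 * β)
    have := lt_of_le_of_ne this hne
    linarith
  have hsum : (1 - Real.cos (2 * β)) * (A ^ 2 + B ^ 2) = 0 := by
    linear_combination A * eA + B * eB
  have h0 : A ^ 2 + B ^ 2 = 0 := (mul_eq_zero.1 hsum).resolve_left hpos.ne'
  constructor
  · nlinarith [sq_nonneg A, sq_nonneg B]
  · nlinarith [sq_nonneg A, sq_nonneg B]

lemma trig_sum (x β : ℝ) :
    Real.cos x + Real.cos (β - x) = 2 * Real.cos (β / 2) * Real.cos (x - β / 2) := by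
  have e1 : x = β / 2 + (x - β / 2) := by ring
  have e2 : β - x = β / 2 - (x - β / 2) := by ring
  generalize x - β / 2 = b at *
  rw [e2]
  conv_lhs => rw [e1]
  rw [Real.cos_add, Real.cos_sub]
  ring

lemma trig_dif (x β : ℝ) :
    Real.cos (β - x) - Real.cos x = 2 * Real.sin (β / 2) * Real.sin (x - β / 2) := by
  have e1 : x = β / 2 + (x - β / 2) := by ring
  have e2 : β - x = β / 2 - (x - β / 2) := by ring
  generalize x - β / 2 = b at *
  rw [e2]
  conv_lhs => rw [e1]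
  rw [Real.cos_add, Real.cos_sub]
  ring

/-- Two solutions of the functional equation with the same support function. -/
lemma same_center {H : ℝ → ℝ} (hc : Continuous H) {R₁ R₂ β₁ β₂ : ℝ}
    (hR₁ : 0 < R₁) (hR₂ : 0 < R₂) (hβ₁ : 0 < β₁) (hβ₁' : β₁ < π) (hβ₂ : 0 < β₂) (hβ₂' : β₂ < π)
    (hne : β₁ ≠ β₂)
    (hb₁ : ∀ φ, |H φ| < R₁) (hb₂ : ∀ φ, |H φ| < R₂)
    (hf₁ : ∀ φ, Real.arccos (H φ / R₁) + Real.arccos (H (φ + β₁) / R₁) = β₁)
    (hf₂ : ∀ φ, Real.arccos (H φ / R₂) + Real.arccos (H (φ + β₂) / R₂) = β₂) :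
    ∀ φ, H φ = R₁ * Real.cos (β₁ / 2) := by
  have cosarc : ∀ {R : ℝ}, 0 < R → (∀ φ, |H φ| < R) → ∀ φ,
      Real.cos (Real.arccos (H φ / R)) = H φ / R := by
    intro R hR hb φ
    have := abs_lt.1 (hb φ)
    apply Real.cos_arccos
    · rw [le_div_iff₀ hR]; linarith [this.1]
    · rw [div_le_iff₀ hR]; linarith [this.2]
  have Heq : ∀ {R : ℝ}, 0 < R → (∀ φ, |H φ| < R) → ∀ φ,
      H φ = R * Real.cos (Real.arccos (H φ / R)) := by
    intro R hR hb φ
    rw [cosarc hR hb]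
    field_simp
  set ψ₁ : ℝ → ℝ := fun φ => Real.arccos (H φ / R₁) with hψ₁
  set ψ₂ : ℝ → ℝ := fun φ => Real.arccos (H φ / R₂) with hψ₂
  have hf₁' : ∀ φ, ψ₁ φ + ψ₁ (φ + β₁) = β₁ := hf₁
  have hf₂' : ∀ φ, ψ₂ φ + ψ₂ (φ + β₂) = β₂ := hf₂
  have hH₁ : ∀ φ, H φ = R₁ * Real.cos (ψ₁ φ) := Heq hR₁ hb₁
  have hH₂ : ∀ φ, H φ = R₂ * Real.cos (ψ₂ φ) := Heq hR₂ hb₂
  have hψ₁0 : ∀ φ, 0 ≤ ψ₁ φ := fun φ => Real.arccos_nonneg _
  have hψ₂0 : ∀ φ, 0 ≤ ψ₂ φ := fun φ => Real.arccos_nonneg _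
  have hψ₁c : Continuous ψ₁ := Real.continuous_arccos.comp (hc.div_const _)
  -- if `ψ₁` is constant we are done
  suffices hconst : ∀ φ, ψ₁ φ = β₁ / 2 by
    intro φ
    rw [hH₁, hconst]
  by_contra hnc
  push Not at hnc
  obtain ⟨φ₁, hφ₁⟩ := hnc
  -- the group of periods
  let G : AddSubgroup ℝ :=
    { carrier := {p | ∀ φ, H (φ + p) = H φ}
      add_mem' := by
        intro a b ha hb φ
        rw [← add_assoc, hb, ha]
      zero_mem' := by intro φ; simp
      neg_mem' := by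
        intro a ha φ
        have := ha (φ + -a)
        rw [neg_add_cancel_right] at this
        exact this.symm }
  have hG : ∀ p, p ∈ G ↔ ∀ φ, H (φ + p) = H φ := fun p => Iff.rfl
  have hper₁ : 2 * β₁ ∈ G := by
    rw [hG]
    intro φ
    have e1 := hf₁' φ
    have e2 := hf₁' (φ + β₁)
    have e3 : ψ₁ (φ + β₁ + β₁) = ψ₁ φ := by linarith
    have e4 : φ + 2 * β₁ = φ + β₁ + β₁ := by ring
    rw [e4, hH₁, e3, ← hH₁]
  have hper₂ : 2 * β₂ ∈ G := by
    rw [hG]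
    intro φ
    have e1 := hf₂' φ
    have e2 := hf₂' (φ + β₂)
    have e3 : ψ₂ (φ + β₂ + β₂) = ψ₂ φ := by linarith
    have e4 : φ + 2 * β₂ = φ + β₂ + β₂ := by ring
    rw [e4, hH₂, e3, ← hH₂]
  have hnconst : ¬ ∀ φ, H φ = H 0 := by
    intro hall
    apply hφ₁
    have e1 := hf₁' φ₁
    have e2 : ψ₁ (φ₁ + β₁) = ψ₁ φ₁ := by
      simp only [hψ₁]
      rw [hall φ₁, hall (φ₁ + β₁)]
    linarith
  rcases G.dense_or_cyclic with hd | ⟨a, ha⟩
  · apply hnconst
    intro φ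
    have hclosed : IsClosed {p : ℝ | H p = H 0} := isClosed_eq hc continuous_const
    have hsub : (G : Set ℝ) ⊆ {p : ℝ | H p = H 0} := by
      intro p hp
      have := (hG p).1 hp 0
      rwa [zero_add] at this
    have := hclosed.closure_subset_iff.2 hsub
    exact this (hd φ)
  · have hmem : ∀ p, p ∈ G ↔ ∃ n : ℤ, n • a = p := by
      intro p
      rw [ha, AddSubgroup.mem_closure_singleton]
    obtain ⟨k₁, hk₁⟩ := (hmem _).1 hper₁
    obtain ⟨k₂, hk₂⟩ := (hmem _).1 hper₂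
    rw [zsmul_eq_mul] at hk₁ hk₂
    have hH1G : ∀ p ∈ G, ∀ φ, ψ₁ (φ + p) = ψ₁ φ := by
      intro p hp φ
      simp only [hψ₁]
      rw [(hG p).1 hp φ]
    have hH2G : ∀ p ∈ G, ∀ φ, ψ₂ (φ + p) = ψ₂ φ := by
      intro p hp φ
      simp only [hψ₂]
      rw [(hG p).1 hp φ]
    -- `k₁` is odd
    have odd₁ : Odd k₁ := by
      rw [← Int.not_even_iff_odd]
      rintro ⟨m, hm⟩
      apply hφ₁
      have hb : β₁ ∈ G := by
        rw [hmem]
        refine ⟨m, ?_⟩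
        rw [zsmul_eq_mul]
        rw [hm] at hk₁
        push_cast at hk₁
        linarith
      have e1 := hf₁' φ₁
      rw [hH1G _ hb] at e1
      linarith
    have odd₂ : Odd k₂ := by
      rw [← Int.not_even_iff_odd]
      rintro ⟨m, hm⟩
      apply hnconst
      have hb : β₂ ∈ G := by
        rw [hmem]
        refine ⟨m, ?_⟩
        rw [zsmul_eq_mul]
        rw [hm] at hk₂
        push_cast at hk₂
        linarith
      have e1 : ∀ φ, ψ₂ φ = β₂ / 2 := by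
        intro φ
        have e1 := hf₂' φ
        rw [hH2G _ hb] at e1
        linarith
      intro φ
      rw [hH₂, hH₂ 0, e1, e1]
    obtain ⟨j₁, hj₁⟩ := odd₁
    obtain ⟨j₂, hj₂⟩ := odd₂
    set s : ℝ := a / 2 with hs
    have sh₁ : ∀ φ, ψ₁ (φ + s) = β₁ - ψ₁ φ := by
      intro φ
      have hm : (j₁ : ℝ) * a ∈ G := (hmem _).2 ⟨j₁, by rw [zsmul_eq_mul]⟩
      have e1 := hH1G _ hm (φ + s)
      have e2 : φ + s + j₁ * a = φ + β₁ := by
        rw [hj₁] at hk₁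
        push_cast at hk₁
        rw [hs]
        linarith
      rw [e2] at e1
      linarith [hf₁' φ]
    have sh₂ : ∀ φ, ψ₂ (φ + s) = β₂ - ψ₂ φ := by
      intro φ
      have hm : (j₂ : ℝ) * a ∈ G := (hmem _).2 ⟨j₂, by rw [zsmul_eq_mul]⟩
      have e1 := hH2G _ hm (φ + s)
      have e2 : φ + s + j₂ * a = φ + β₂ := by
        rw [hj₂] at hk₂
        push_cast at hk₂
        rw [hs]
        linarith
      rw [e2] at e1
      linarith [hf₂' φ]
    -- a point with `ψ₁ = β₁ / 2`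
    obtain ⟨φ₀, hφ₀⟩ : ∃ φ₀, ψ₁ φ₀ = β₁ / 2 := by
      have hr := isPreconnected_univ.intermediate_value₂ (f := ψ₁) (g := fun _ => β₁ / 2)
        (a := φ₁) (b := φ₁ + s) (mem_univ _) (mem_univ _) hψ₁c.continuousOn
        continuousOn_const
      rcases le_total (ψ₁ φ₁) (β₁ / 2) with hle | hle
      · obtain ⟨z, _, hz⟩ := hr hle (by rw [sh₁]; linarith)
        exact ⟨z, hz⟩
      · have hr' := isPreconnected_univ.intermediate_value₂ (f := ψ₁) (g := fun _ => β₁ / 2)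
          (a := φ₁ + s) (b := φ₁) (mem_univ _) (mem_univ _) hψ₁c.continuousOn
          continuousOn_const
        obtain ⟨z, _, hz⟩ := hr' (by rw [sh₁]; linarith) hle
        exact ⟨z, hz⟩
    have hle₁ : ∀ φ, ψ₁ φ ≤ β₁ := fun φ => by have := hψ₁0 (φ + s); rw [sh₁] at this; linarith
    have hle₂ : ∀ φ, ψ₂ φ ≤ β₂ := fun φ => by have := hψ₂0 (φ + s); rw [sh₂] at this; linarith
    have hφ₀2 : ψ₂ φ₀ = β₂ / 2 := by
      have e1 : H (φ₀ + s) = H φ₀ := by
        rw [hH₁, hH₁ φ₀, sh₁, hφ₀]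
        ring_nf
      have e2 : ψ₂ (φ₀ + s) = ψ₂ φ₀ := by
        simp only [hψ₂]
        rw [e1]
      rw [sh₂] at e2
      linarith
    have hA : R₁ * Real.cos (β₁ / 2) = R₂ * Real.cos (β₂ / 2) := by
      rw [← hφ₀, ← hφ₀2, ← hH₁, ← hH₂]
    have hcos₁ : 0 < Real.cos (β₁ / 2) :=
      Real.cos_pos_of_mem_Ioo ⟨by linarith, by linarith⟩
    have hcos₂ : 0 < Real.cos (β₂ / 2) :=
      Real.cos_pos_of_mem_Ioo ⟨by linarith, by linarith⟩
    -- sums and differences at `φ₁`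
    have sum₁ : H φ₁ + H (φ₁ + s) = 2 * (R₁ * Real.cos (β₁ / 2)) * Real.cos (ψ₁ φ₁ - β₁ / 2) := by
      rw [hH₁, hH₁ (φ₁ + s), sh₁]
      linear_combination R₁ * trig_sum (ψ₁ φ₁) β₁
    have sum₂ : H φ₁ + H (φ₁ + s) = 2 * (R₂ * Real.cos (β₂ / 2)) * Real.cos (ψ₂ φ₁ - β₂ / 2) := by
      rw [hH₂, hH₂ (φ₁ + s), sh₂]
      linear_combination R₂ * trig_sum (ψ₂ φ₁) β₂
    have dif₁ : H (φ₁ + s) - H φ₁ = 2 * (R₁ * Real.sin (β₁ / 2)) * Real.sin (ψ₁ φ₁ - β₁ / 2) := by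
      rw [hH₁, hH₁ φ₁, sh₁]
      linear_combination R₁ * trig_dif (ψ₁ φ₁) β₁
    have dif₂ : H (φ₁ + s) - H φ₁ = 2 * (R₂ * Real.sin (β₂ / 2)) * Real.sin (ψ₂ φ₁ - β₂ / 2) := by
      rw [hH₂, hH₂ φ₁, sh₂]
      linear_combination R₂ * trig_dif (ψ₂ φ₁) β₂
    have hApos : 0 < R₁ * Real.cos (β₁ / 2) := mul_pos hR₁ hcos₁
    have hcc : Real.cos (ψ₁ φ₁ - β₁ / 2) = Real.cos (ψ₂ φ₁ - β₂ / 2) := by
      rw [sum₂, ← hA] at sum₁
      have : (2 * (R₁ * Real.cos (β₁ / 2))) *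
        (Real.cos (ψ₁ φ₁ - β₁ / 2) - Real.cos (ψ₂ φ₁ - β₂ / 2)) = 0 := by linarith
      have := (mul_eq_zero.1 this).resolve_left (by positivity)
      linarith
    have hss : Real.sin (ψ₁ φ₁ - β₁ / 2) ^ 2 = Real.sin (ψ₂ φ₁ - β₂ / 2) ^ 2 := by
      rw [Real.sin_sq, Real.sin_sq, hcc]
    have hs0 : Real.sin (ψ₁ φ₁ - β₁ / 2) ≠ 0 := by
      intro h0
      apply hφ₁
      have hb : -π < ψ₁ φ₁ - β₁ / 2 ∧ ψ₁ φ₁ - β₁ / 2 < π :=
        ⟨by linarith [hψ₁0 φ₁], by linarith [hle₁ φ₁]⟩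
      have := (Real.sin_eq_zero_iff_of_lt_of_lt hb.1 hb.2).1 h0
      linarith
    have hsq : (R₁ * Real.sin (β₁ / 2)) ^ 2 = (R₂ * Real.sin (β₂ / 2)) ^ 2 := by
      have e : (2 * (R₁ * Real.sin (β₁ / 2)) * Real.sin (ψ₁ φ₁ - β₁ / 2)) ^ 2 =
          (2 * (R₂ * Real.sin (β₂ / 2)) * Real.sin (ψ₂ φ₁ - β₂ / 2)) ^ 2 := by
        rw [← dif₁, ← dif₂]
      have e' : ((R₁ * Real.sin (β₁ / 2)) ^ 2 - (R₂ * Real.sin (β₂ / 2)) ^ 2) *
          Real.sin (ψ₁ φ₁ - β₁ / 2) ^ 2 = 0 := by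
        have e2 : 4 * (R₁ * Real.sin (β₁ / 2)) ^ 2 * Real.sin (ψ₁ φ₁ - β₁ / 2) ^ 2 =
          4 * (R₂ * Real.sin (β₂ / 2)) ^ 2 * Real.sin (ψ₂ φ₁ - β₂ / 2) ^ 2 := by
          linear_combination e
        rw [← hss] at e2
        linear_combination e2 / 4
      have := (mul_eq_zero.1 e').resolve_right (pow_ne_zero 2 hs0)
      linarith
    have hRsq : R₁ ^ 2 = R₂ ^ 2 := by
      have t1 := Real.sin_sq_add_cos_sq (β₁ / 2)
      have t2 := Real.sin_sq_add_cos_sq (β₂ / 2)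
      have t3 : (R₁ * Real.cos (β₁ / 2)) ^ 2 = (R₂ * Real.cos (β₂ / 2)) ^ 2 := by rw [hA]
      linear_combination hsq + t3 - R₁ ^ 2 * t1 + R₂ ^ 2 * t2
    have hReq : R₁ = R₂ := by
      have := (sq_eq_sq₀ hR₁.le hR₂.le).1 hRsq
      exact this
    rw [hReq] at hA
    have hcc2 : Real.cos (β₁ / 2) = Real.cos (β₂ / 2) := mul_left_cancel₀ hR₂.ne' hA
    have : β₁ / 2 = β₂ / 2 :=
      Real.injOn_cos ⟨by linarith, by linarith⟩ ⟨by linarith, by linarith⟩ hcc2
    exact hne (by linarith)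

end Pool.Agent.NH81.Iso
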