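import Pool.Agent.NH81.Iso.C
/-!
# Two circular isoptics force a disc: the complex plane, and discs
-/
open Set Real Metric
open scoped EuclideanGeometry

namespace Pool.Agent.NH81.Iso

lemma integral_L_cos (c : ℂ) : (∫ φ in (0 : ℝ)..(2 * π), L φ c * Real.cos φ) = π * c.re := by
  have : (fun φ => L φ c * Real.cos φ) =
      fun φ => c.re * Real.cos φ ^ 2 + c.im * (Real.sin φ * Real.cos φ) := by
    funext φ; rw [L]; ring
  rw [this, intervalIntegral.integral_add, intervalIntegral.integral_const_mul,
    intervalIntegral.integral_const_mul, integral_cos_sq, integral_sin_mul_cos₁]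
  · simp
    ring
  · exact (by fun_prop : Continuous fun φ => c.re * Real.cos φ ^ 2).intervalIntegrable _ _
  · exact (by fun_prop : Continuous fun φ => c.im * (Real.sin φ * Real.cos φ)).intervalIntegrable
      _ _

lemma integral_L_sin (c : ℂ) : (∫ φ in (0 : ℝ)..(2 * π), L φ c * Real.sin φ) = π * c.im := by
  have : (fun φ => L φ c * Real.sin φ) =
      fun φ => c.re * (Real.sin φ * Real.cos φ) + c.im * Real.sin φ ^ 2 := by
    funext φ; rw [L]; ring
  rw [this, intervalIntegral.integral_add, intervalIntegral.integral_const_mul,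
    intervalIntegral.integral_const_mul, integral_sin_sq, integral_sin_mul_cos₁]
  · simp
    ring
  · exact (by fun_prop : Continuous fun φ => c.re * (Real.sin φ * Real.cos φ)).intervalIntegrable
      _ _
  · exact (by fun_prop : Continuous fun φ => c.im * Real.sin φ ^ 2).intervalIntegrable _ _

lemma L_cont (c : ℂ) : Continuous fun φ => L φ c := by
  unfold L
  fun_prop

/-- The centre of a circular isoptic is determined by the support function. -/
lemma steiner {S : Set ℂ} (hS : IsCompact S) {c : ℂ} {β R : ℝ} (hR : 0 < R) (hβ : 0 < β)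
    (hβ' : β < π) (hb : ∀ φ, |supp S φ - L φ c| < R)
    (hf : ∀ φ, Real.arccos ((supp S φ - L φ c) / R) +
      Real.arccos ((supp S (φ + β) - L (φ + β) c) / R) = β) :
    (∫ φ in (0 : ℝ)..(2 * π), supp S φ * Real.cos φ) = π * c.re ∧
    (∫ φ in (0 : ℝ)..(2 * π), supp S φ * Real.sin φ) = π * c.im := by
  have hcont : Continuous fun φ => supp S φ - L φ c := (supp_continuous hS).sub (L_cont c)
  have hper : ∀ φ, supp S (φ + 2 * β) - L (φ + 2 * β) c = supp S φ - L φ c := by
    intro φ
    have e1 := hf φ
    have e2 := hf (φ + β)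
    have e3 : Real.arccos ((supp S (φ + β + β) - L (φ + β + β) c) / R) =
      Real.arccos ((supp S φ - L φ c) / R) := by linarith
    have e4 : φ + β + β = φ + 2 * β := by ring
    rw [e4] at e3
    have b1 := abs_lt.1 (hb (φ + 2 * β))
    have b2 := abs_lt.1 (hb φ)
    have e5 := Real.arccos_injOn (x₁ := (supp S (φ + 2 * β) - L (φ + 2 * β) c) / R)
      (x₂ := (supp S φ - L φ c) / R)
      ⟨by rw [le_div_iff₀ hR]; linarith [b1.1], by rw [div_le_iff₀ hR]; linarith [b1.2]⟩
      ⟨by rw [le_div_iff₀ hR]; linarith [b2.1], by rw [div_le_iff₀ hR]; linarith [b2.2]⟩ e3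
    field_simp at e5
    exact e5
  have hper2 : ∀ φ, supp S (φ + 2 * π) - L (φ + 2 * π) c = supp S φ - L φ c := by
    intro φ
    rw [supp_periodic, L_periodic]
  obtain ⟨h1, h2⟩ := first_harmonic hβ hβ' hper2 hper hcont
  constructor
  · rw [← integral_L_cos, ← sub_eq_zero, ← intervalIntegral.integral_sub]
    · rw [← h1]
      congr 1
      funext φ
      ring
    · exact ((supp_continuous hS).mul Real.continuous_cos).intervalIntegrable _ _
    · exact ((L_cont c).mul Real.continuous_cos).intervalIntegrable _ _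
  · rw [← integral_L_sin, ← sub_eq_zero, ← intervalIntegral.integral_sub]
    · rw [← h2]
      congr 1
      funext φ
      ring
    · exact ((supp_continuous hS).mul Real.continuous_sin).intervalIntegrable _ _
    · exact ((L_cont c).mul Real.continuous_sin).intervalIntegrable _ _

/-- A compact convex set with constant support function about `c` is a disc. -/
lemma eq_closedBall {S : Set ℂ} (hS : IsCompact S) (hc : Convex ℝ S) {c : ℂ}
    {r : ℝ} (hr : 0 < r) (h : ∀ φ, supp S φ - L φ c = r) : S = closedBall c r := by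
  apply Subset.antisymm
  · intro x hx
    rw [mem_closedBall, dist_eq_norm]
    set φ : ℝ := Complex.arg (x - c) with hφ
    have e1 : L φ (x - c) = ‖x - c‖ := by
      conv_lhs => rw [← Complex.norm_mul_exp_arg_mul_I (x - c)]
      rw [L_polar, ← hφ, sub_self, Real.cos_zero, mul_one]
    rw [← e1, L_sub, ← h φ]
    linarith [L_le_supp hS hx φ]
  · intro x hx
    by_contra hxS
    obtain ⟨f, u, h1, h2⟩ := geometric_hahn_banach_closed_point hc hS.isClosed hxS
    have hf : ∀ z : ℂ, f z = f 1 * z.re + f Complex.I * z.im := by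
      intro z
      have : z = z.re • (1 : ℂ) + z.im • Complex.I := by
        simp
      conv_lhs => rw [this]
      rw [map_add, map_smul, map_smul, smul_eq_mul, smul_eq_mul]
      ring
    set w : ℂ := ⟨f 1, f Complex.I⟩ with hw
    have hwn : 0 ≤ ‖w‖ := norm_nonneg _
    set ω : ℝ := Complex.arg w with hω
    have hfL : ∀ z : ℂ, f z = ‖w‖ * L ω z := by
      intro z
      rw [hf z, L]
      have e := Complex.norm_mul_exp_arg_mul_I w
      have er : f 1 = ‖w‖ * Real.cos ω := by
        have := congrArg Complex.re e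
        simp at this
        rw [hω]
        simp [hw]
      have ei : f Complex.I = ‖w‖ * Real.sin ω := by
        have := congrArg Complex.im e
        simp at this
        rw [hω]
        simp [hw]
      rw [er, ei]
      ring
    rcases S.eq_empty_or_nonempty with hne | hne
    · -- impossible: the support function of the empty set
      have := h 0
      have h' := h π
      rw [hne] at this h'
      simp [supp, L] at this h'
      linarith
    · obtain ⟨y, hy, hy'⟩ := exists_supp hS hne ω
      have a1 := h1 y hy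
      rw [hfL] at a1 h2
      rw [mem_closedBall, dist_eq_norm] at hx
      have a2 : |L ω (x - c)| ≤ ‖x - c‖ := by
        have := L_sub_eq c 0 ω x
        rw [this, abs_mul, abs_norm]
        have := Real.abs_cos_le_one (0 + dir c 0 x - ω)
        have h3 := norm_nonneg (x - c)
        nlinarith
      have a3 := (abs_le.1 a2).2
      rw [L_sub] at a3
      have a4 := h ω
      rw [hy'] at a4
      have a5 : L ω x ≤ L ω y := by linarith
      have := mul_le_mul_of_nonneg_left a5 hwn
      linarith

/-- Two circular isoptics force a disc. -/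
theorem disc_of_two {S : Set ℂ} (hS : IsCompact S) (hc : Convex ℝ S) {c₁ c₂ : ℂ}
    {R₁ R₂ α₁ α₂ : ℝ} (hR₁ : 0 < R₁) (hR₂ : 0 < R₂) (hα₁ : 0 < α₁) (hα₁' : α₁ < π)
    (hα₂ : 0 < α₂) (hα₂' : α₂ < π) (hne : α₁ ≠ α₂)
    (h₁ : sphere c₁ R₁ ⊆ isoptic S α₁) (h₂ : sphere c₂ R₂ ⊆ isoptic S α₂) :
    c₁ = c₂ ∧ ∃ r, 0 < r ∧ S = closedBall c₁ r := by
  have hSne : S.Nonempty := by
    by_contra hemp
    rw [not_nonempty_iff_eq_empty] at hemp
    have hp : c₁ + R₁ ∈ sphere c₁ R₁ := by
      simp [abs_of_pos hR₁]
    have := (h₁ hp).2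
    rw [hemp] at this
    simp [angleOfSight] at this
    linarith
  have in₁ := inside hS hc hSne hR₁ hα₁ h₁
  have in₂ := inside hS hc hSne hR₂ hα₂ h₂
  have f₁ := fun φ => funeq hS hSne hR₁ hα₁ h₁ in₁ φ
  have f₂ := fun φ => funeq hS hSne hR₂ hα₂ h₂ in₂ φ
  obtain ⟨s₁, t₁⟩ := steiner hS hR₁ (β := π - α₁) (by linarith) (by linarith)
    (fun φ => (f₁ φ).1) (fun φ => (f₁ φ).2)
  obtain ⟨s₂, t₂⟩ := steiner hS hR₂ (β := π - α₂) (by linarith) (by linarith)
    (fun φ => (f₂ φ).1) (fun φ => (f₂ φ).2)
  have hcc : c₁ = c₂ := by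
    apply Complex.ext
    · have : π * c₁.re = π * c₂.re := by rw [← s₁, s₂]
      exact mul_left_cancel₀ pi_pos.ne' this
    · have : π * c₁.im = π * c₂.im := by rw [← t₁, t₂]
      exact mul_left_cancel₀ pi_pos.ne' this
  refine ⟨hcc, ?_⟩
  subst hcc
  have hconst := same_center (H := fun φ => supp S φ - L φ c₁)
    ((supp_continuous hS).sub (L_cont c₁)) hR₁ hR₂ (β₁ := π - α₁) (β₂ := π - α₂)
    (by linarith) (by linarith) (by linarith) (by linarith)
    (fun h => hne (by linarith)) (fun φ => (f₁ φ).1) (fun φ => (f₂ φ).1)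
    (fun φ => (f₁ φ).2) (fun φ => (f₂ φ).2)
  have hr : 0 < R₁ * Real.cos ((π - α₁) / 2) :=
    mul_pos hR₁ (Real.cos_pos_of_mem_Ioo ⟨by linarith, by linarith⟩)
  exact ⟨_, hr, eq_closedBall hS hc hr hconst⟩

lemma norm_le_of_L {x : ℂ} {φ : ℝ} : |L φ x| ≤ ‖x‖ := by
  have := L_sub_eq 0 0 φ x
  rw [sub_zero] at this
  rw [this, abs_mul, abs_norm]
  have := Real.abs_cos_le_one (0 + dir 0 0 x - φ)
  have h3 := norm_nonneg x
  nlinarith

/-- Support function of a disc. -/
lemma supp_closedBall (c : ℂ) {r : ℝ} (hr : 0 ≤ r) (φ : ℝ) :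
    supp (closedBall c r) φ = L φ c + r := by
  apply IsGreatest.csSup_eq
  constructor
  · refine ⟨c + r * Complex.exp (φ * Complex.I), ?_, ?_⟩
    · rw [mem_closedBall, dist_eq_norm]
      have : c + r * Complex.exp (φ * Complex.I) - c = r * Complex.exp (φ * Complex.I) := by ring
      rw [this, norm_mul, Complex.norm_exp_ofReal_mul_I, mul_one, Complex.norm_real,
        Real.norm_eq_abs, abs_of_nonneg hr]
    · rw [L_add, L_polar, sub_self, Real.cos_zero, mul_one]
  · rintro _ ⟨x, hx, rfl⟩
    rw [mem_closedBall, dist_eq_norm] at hx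
    have := (abs_le.1 (norm_le_of_L (x := x - c) (φ := φ))).2
    rw [L_sub] at this
    linarith

/-- The angle of sight of a disc. -/
lemma sight_disc (c : ℂ) {r : ℝ} (hr : 0 < r) {P : ℂ} (hP : P ∉ closedBall c r) :
    angleOfSight (closedBall c r) P = 2 * Real.arcsin (r / dist P c) := by
  have hd : r < dist P c := by rwa [mem_closedBall, not_le] at hP
  set ρ : ℝ := dist P c with hρ
  have hρ0 : 0 < ρ := hr.trans hd
  have hnorm : ‖P - c‖ = ρ := by rw [hρ, dist_eq_norm]
  set θ : ℝ := Complex.arg (P - c) with hθ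
  have hPc : P - c = ρ * Complex.exp (θ * Complex.I) := by
    rw [← hnorm, hθ, Complex.norm_mul_exp_arg_mul_I]
  have hL : ∀ φ, L φ (P - c) = ρ * Real.cos (θ - φ) := by
    intro φ
    rw [hPc, L_polar]
  have hpos : ∀ x ∈ closedBall c r, 0 < L (θ + π) (x - P) := by
    intro x hx
    have e : x - P = (x - c) - (P - c) := by ring
    rw [e, L_sub, hL]
    have h1 : Real.cos (θ - (θ + π)) = -1 := by
      have : θ - (θ + π) = -π := by ring
      rw [this, Real.cos_neg, Real.cos_pi]
    rw [h1]
    rw [mem_closedBall, dist_eq_norm] at hx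
    have := (abs_le.1 (norm_le_of_L (x := x - c) (φ := θ + π))).1
    linarith
  have hne : (closedBall c r).Nonempty := ⟨c, mem_closedBall_self hr.le⟩
  have hcomp : IsCompact (closedBall c r) := isCompact_closedBall c r
  obtain ⟨y₁, hy₁, y₂, hy₂, hext, hang⟩ := sight hcomp hne hpos
  have hdy1 := dir_mem (hpos y₁ hy₁)
  have hdy2 := dir_mem (hpos y₂ hy₂)
  rw [hang]
  -- support lines
  have key2 : Real.sin (dir P (θ + π) y₂) = r / ρ := by
    set φ : ℝ := θ + π + dir P (θ + π) y₂ + π / 2 with hφ
    have e0 : L φ (y₂ - P) = 0 := by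
      rw [L_sub_eq P (θ + π)]
      have : θ + π + dir P (θ + π) y₂ - φ = -(π / 2) := by rw [hφ]; ring
      rw [this, Real.cos_neg, Real.cos_pi_div_two, mul_zero]
    have hle : ∀ x ∈ closedBall c r, L φ x ≤ L φ P := by
      intro x hx
      have : L φ (x - P) ≤ 0 := by
        rw [L_sub_eq P (θ + π)]
        have e : θ + π + dir P (θ + π) x - φ =
            (dir P (θ + π) x - dir P (θ + π) y₂) - π / 2 := by rw [hφ]; ring
        rw [e, Real.cos_sub_pi_div_two]
        have hdx := dir_mem (hpos x hx)
        exact mul_nonpos_of_nonneg_of_nonpos (norm_nonneg _)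
          (Real.sin_nonpos_of_nonpos_of_neg_pi_le (by linarith [(hext x hx).2])
            (by linarith [hdx.1, hdy2.2]))
      rw [L_sub] at this
      linarith
    have hs : supp (closedBall c r) φ = L φ P := by
      apply le_antisymm
      · apply csSup_le (hne.image _)
        rintro _ ⟨x, hx, rfl⟩
        exact hle x hx
      · have := L_le_supp hcomp hy₂ φ
        rw [L_sub] at e0
        linarith
    rw [supp_closedBall c hr.le] at hs
    have e1 := hL φ
    rw [L_sub] at e1
    have e2 : θ - φ = -(dir P (θ + π) y₂ + π / 2 + π) := by rw [hφ]; ring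
    rw [e2, Real.cos_neg, Real.cos_add_pi, Real.cos_add_pi_div_two, neg_neg] at e1
    rw [eq_div_iff hρ0.ne']
    linarith
  have key1 : Real.sin (dir P (θ + π) y₁) = -(r / ρ) := by
    set φ : ℝ := θ + π + dir P (θ + π) y₁ - π / 2 with hφ
    have e0 : L φ (y₁ - P) = 0 := by
      rw [L_sub_eq P (θ + π)]
      have : θ + π + dir P (θ + π) y₁ - φ = π / 2 := by rw [hφ]; ring
      rw [this, Real.cos_pi_div_two, mul_zero]
    have hle : ∀ x ∈ closedBall c r, L φ x ≤ L φ P := by
      intro x hx
      have : L φ (x - P) ≤ 0 := by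
        rw [L_sub_eq P (θ + π)]
        have e : θ + π + dir P (θ + π) x - φ =
            (dir P (θ + π) x - dir P (θ + π) y₁) + π / 2 := by rw [hφ]; ring
        rw [e, Real.cos_add_pi_div_two]
        have hdx := dir_mem (hpos x hx)
        have := mul_nonneg (norm_nonneg (x - P))
          (Real.sin_nonneg_of_nonneg_of_le_pi
            (x := dir P (θ + π) x - dir P (θ + π) y₁) (by linarith [(hext x hx).1])
            (by linarith [hdx.2, hdy1.1]))
        linarith
      rw [L_sub] at this
      linarith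
    have hs : supp (closedBall c r) φ = L φ P := by
      apply le_antisymm
      · apply csSup_le (hne.image _)
        rintro _ ⟨x, hx, rfl⟩
        exact hle x hx
      · have := L_le_supp hcomp hy₁ φ
        rw [L_sub] at e0
        linarith
    rw [supp_closedBall c hr.le] at hs
    have e1 := hL φ
    rw [L_sub] at e1
    have e2 : θ - φ = -(dir P (θ + π) y₁ - π / 2 + π) := by rw [hφ]; ring
    rw [e2, Real.cos_neg, Real.cos_add_pi, Real.cos_sub_pi_div_two] at e1
    have : ρ * Real.sin (dir P (θ + π) y₁) = - r := by linarith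
    rw [← neg_div, eq_div_iff hρ0.ne']
    linarith
  have a2 : dir P (θ + π) y₂ = Real.arcsin (r / ρ) := by
    rw [← key2, Real.arcsin_sin hdy2.1.le hdy2.2.le]
  have a1 : dir P (θ + π) y₁ = -Real.arcsin (r / ρ) := by
    rw [← Real.arcsin_neg, ← key1, Real.arcsin_sin hdy1.1.le hdy1.2.le]
  rw [a1, a2]
  ring

/-- The isoptics of a disc are concentric circles. -/
theorem isoptic_disc (c : ℂ) {r α : ℝ} (hr : 0 < r) (hα : 0 < α) (hα' : α < π) :
    isoptic (closedBall c r) α = sphere c (r / Real.sin (α / 2)) := by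
  have hs0 : 0 < Real.sin (α / 2) := Real.sin_pos_of_pos_of_lt_pi (by linarith) (by linarith)
  have hs1 : Real.sin (α / 2) < 1 := by
    rw [← Real.sin_pi_div_two]
    exact Real.sin_lt_sin_of_lt_of_le_pi_div_two (by linarith) le_rfl (by linarith)
  ext P
  constructor
  · rintro ⟨h1, h2⟩
    have hd : r < dist P c := by rwa [mem_closedBall, not_le] at h1
    have hρ0 : 0 < dist P c := hr.trans hd
    rw [sight_disc c hr h1] at h2
    have e : Real.arcsin (r / dist P c) = α / 2 := by linarith
    have e2 : r / dist P c = Real.sin (α / 2) := by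
      rw [← e, Real.sin_arcsin]
      · have : 0 < r / dist P c := by positivity
        linarith
      · rw [div_le_one hρ0]; exact hd.le
    rw [mem_sphere, ← e2]
    field_simp
  · intro h
    rw [mem_sphere] at h
    have hd : r < dist P c := by
      rw [h, lt_div_iff₀ hs0]
      nlinarith
    have h1 : P ∉ closedBall c r := by rwa [mem_closedBall, not_le]
    refine ⟨h1, ?_⟩
    rw [sight_disc c hr h1, h]
    have e : r / (r / Real.sin (α / 2)) = Real.sin (α / 2) := by
      field_simp
    rw [e, Real.arcsin_sin (by linarith) (by linarith)]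
    ring

end Pool.Agent.NH81.Iso
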